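import Pool.Agent.Lib.MP_ea1188_al.KG.AsmAC

/-! # FREE: unipotent deformation of products of free groups -/

set_option autoImplicit false

namespace KG.H72

open KG Matrix Polynomial

/-- `(a, b) ↦ (1, b)` -/
def kill (A B : Type) [Group A] [Group B] : A × B →* A × B :=
  (MonoidHom.inr A B).comp (MonoidHom.snd A B)

lemma Rel_trans {κ : Kind} {R : Type} [Ring R] [Algebra (ZMod 2) R] {T : KT κ R} {Γ : Type}
    [Group Γ] {ρ ρ' ρ'' : Γ →* R} (h : Rel T ρ ρ') (h' : Rel T ρ' ρ'') : Rel T ρ ρ'' := by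
  intro ι _ _ x hx
  obtain ⟨M, hM⟩ := h ι x hx
  obtain ⟨M', hM'⟩ := h' ι x hx
  refine ⟨M + M', ?_⟩
  rw [pow_add, mul_comm, mul_smul, hM, ← mul_smul, mul_comm, mul_smul, hM', ← mul_smul]

/-- evaluation at a central element as a ring homomorphism -/
noncomputable def ev {R : Type} [Ring R] (c : R) (hc : ∀ a : R, Commute a c) : R[X] →+* R :=
  Polynomial.eval₂RingHom' (RingHom.id R) c hc

lemma ev_apply {R : Type} [Ring R] (c : R) (hc : ∀ a : R, Commute a c) (p : R[X]) :
    ev c hc p = Polynomial.eval c p := rfl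

lemma free_base (hH : HomotopyS) {κ : Kind} {R : Type} [Ring R] [Algebra (ZMod 2) R] (T : KT κ R)
    {G : Type} [Group G] (ρ : FreeGroup (Fin 3) × G →* R)
    (hρ : ∀ i : Fin 3, IsNilpotent (ρ (FreeGroup.of i, 1) - 1)) :
    Rel T ρ (ρ.comp (kill (FreeGroup (Fin 3)) G)) := by
  intro ι _ _ x hx
  have hunit : ∀ i : Fin 3, ∃ u : (R[X])ˣ, u.val = 1 + X * C (ρ (FreeGroup.of i, 1) - 1) := by
    intro i
    have hnil : IsNilpotent (X * C (ρ (FreeGroup.of i, 1) - 1) : R[X]) := by
      have h1 : IsNilpotent (C (ρ (FreeGroup.of i, 1) - 1) : R[X]) := (hρ i).map C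
      exact Commute.isNilpotent_mul_left (Polynomial.commute_X _) h1
    obtain ⟨u, hu⟩ := hnil.isUnit_one_add
    exact ⟨u, hu⟩
  choose u hu using hunit
  let φ1 : FreeGroup (Fin 3) →* R[X] := (Units.coeHom R[X]).comp (FreeGroup.lift u)
  let φ2 : G →* R[X] := (C : R →+* R[X]).toMonoidHom.comp (ρ.comp (MonoidHom.inr _ _))
  have hcomm : ∀ m g, Commute (φ1 m) (φ2 g) := by
    intro m g
    induction m using FreeGroup.induction_on with
    | C1 => rw [map_one]; exact Commute.one_left _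
    | of i =>
      show Commute ((FreeGroup.lift u (FreeGroup.of i)).val) _
      rw [FreeGroup.lift_apply_of, hu]
      have h1 : Commute (ρ (FreeGroup.of i, 1)) (ρ (1, g)) := by
        show ρ _ * ρ _ = ρ _ * ρ _
        rw [← map_mul, ← map_mul]
        simp
      have h2 : Commute (C (ρ (FreeGroup.of i, 1) - 1) : R[X]) (C (ρ (1, g))) :=
        (h1.sub_left (Commute.one_left _)).map C
      exact (Commute.one_left _).add_left ((Polynomial.commute_X _).mul_left h2)
    | inv_of i h =>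
      have h2 : Commute ((FreeGroup.lift u (FreeGroup.of i)).val) (φ2 g) := h
      show Commute ((FreeGroup.lift u (FreeGroup.of i)⁻¹).val) _
      rw [map_inv]
      exact Commute.units_inv_left h2
    | mul a b ha hb =>
      rw [map_mul]
      exact ha.mul_left hb
  let Φ : FreeGroup (Fin 3) × G →* R[X] := MonoidHom.noncommCoprod φ1 φ2 hcomm
  obtain ⟨M, hM⟩ := hH κ R T ι (x.map (lft Φ)) (P_mapMatrix _ hx)
  refine ⟨M, ?_⟩
  have hgen : ∀ (c : R) (hc : ∀ a : R, Commute a c) (ρ' : FreeGroup (Fin 3) × G →* R),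
      (∀ i, 1 + c * (ρ (FreeGroup.of i, 1) - 1) = ρ' (FreeGroup.of i, 1)) →
      (∀ g, ρ (1, g) = ρ' (1, g)) → (x.map (lft Φ)).map (Polynomial.eval c) = x.map (lft ρ') := by
    intro c hc ρ' h1 h2
    have h3 : (ev c hc).comp (lft Φ) = lft ρ' := by
      apply ringHom_ext2
      rintro ⟨m, g⟩
      rw [RingHom.comp_apply, lft_of, lft_of]
      have h4 : Φ (m, g) = φ1 m * φ2 g := rfl
      have h5 : ρ' (m, g) = ρ' (m, 1) * ρ' (1, g) := by rw [← map_mul]; simp
      rw [h4, h5, map_mul]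
      congr 1
      · have h6 : (ev c hc).toMonoidHom.comp φ1 = ρ'.comp (MonoidHom.inl (FreeGroup (Fin 3)) G) := by
          apply FreeGroup.ext_hom
          intro i
          show ev c hc ((FreeGroup.lift u (FreeGroup.of i)).val) = ρ' (FreeGroup.of i, 1)
          rw [FreeGroup.lift_apply_of, hu, map_add, map_one, map_mul, ← h1 i]
          rw [ev_apply, ev_apply, eval_X, eval_C]
        exact DFunLike.congr_fun h6 m
      · show ev c hc (C (ρ (1, g))) = ρ' (1, g)
        rw [ev_apply, eval_C, h2]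
    ext1 i j
    simp only [Matrix.map_apply]
    rw [← h3]
    rfl
  rw [hgen 1 (fun a => Commute.one_right a) ρ (fun i => by rw [one_mul, add_sub_cancel])
    (fun g => rfl), hgen 0 (fun a => Commute.zero_right a) (ρ.comp (kill _ _)) (fun i => by
      rw [zero_mul, add_zero]
      show 1 = ρ (1, 1)
      exact (map_one ρ).symm) (fun g => rfl)] at hM
  exact hM

lemma free_aux (hH : HomotopyS) {κ : Kind} {R : Type} [Ring R] [Algebra (ZMod 2) R] (T : KT κ R) :
    ∀ (n : ℕ) (G : Type) [Group G] (ρ : PT n × G →* R),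
      UG n (ρ.comp (MonoidHom.inl (PT n) G)) → Rel T ρ (ρ.comp (kill (PT n) G))
  | 0, G, _, ρ, h => free_base hH T (G := G) ρ h
  | n + 1, G, _, ρ, h => by
    -- first factor
    let as : (PT n × PT n) × G ≃* PT n × (PT n × G) := MulEquiv.prodAssoc
    let ρ1 : PT n × (PT n × G) →* R := MonoidHom.comp (M := PT n × (PT n × G))
      (N := (PT n × PT n) × G) ρ as.symm.toMonoidHom
    have h1 := free_aux hH T n (PT n × G) ρ1 h.1
    have h1' := Rel.comp h1 as.toMonoidHom
    -- second factor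
    let j2 : PT n × G →* (PT n × PT n) × G :=
      MonoidHom.prodMap (MonoidHom.inr (PT n) (PT n)) (MonoidHom.id G)
    let ρ2 : PT n × G →* R := MonoidHom.comp (M := PT n × G) (N := (PT n × PT n) × G) ρ j2
    have h2 := free_aux hH T n G ρ2 h.2
    let p2 : (PT n × PT n) × G →* PT n × G :=
      MonoidHom.prodMap (MonoidHom.snd (PT n) (PT n)) (MonoidHom.id G)
    have h2' := Rel.comp h2 p2
    exact Rel_trans h1' h2'

/-- **FREE** -/
theorem free (hH : HomotopyS) : FreeS := by
  intro κ R _ _ T n ρ h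
  have h1 := free_aux hH T n Unit (ρ.comp (MonoidHom.fst (PT n) Unit)) h
  have h2 := Rel.comp h1 (MonoidHom.inl (PT n) Unit)
  have e1 : (ρ.comp (MonoidHom.fst (PT n) Unit)).comp (MonoidHom.inl (PT n) Unit) = ρ := rfl
  have e2 : ((ρ.comp (MonoidHom.fst (PT n) Unit)).comp (kill (PT n) Unit)).comp
      (MonoidHom.inl (PT n) Unit) = 1 := by
    refine MonoidHom.ext fun x => ?_
    show ρ 1 = 1
    exact map_one ρ
  rw [e1, e2] at h2
  exact h2

end KG.H72
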