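import Pool.Agent.Lib.MP_ea1188_al.KG.AsmAC

/-! # LIFT: lifting invertible and idempotent matrices -/

set_option autoImplicit false

namespace KG.H72

open KG Matrix

/-- `Λ → G` -/
def pig : Lam →* Grig := pi0.codRestrict Grig (fun w => by rw [← range_pi0]; exact ⟨w, rfl⟩)

lemma pig_surj : Function.Surjective pig := by
  rintro ⟨g, hg⟩
  rw [← range_pi0] at hg
  obtain ⟨w, rfl⟩ := hg
  exact ⟨w, rfl⟩

lemma pi0_eq_of_pig {w w' : Lam} (h : pig w = pig w') : pi0 w = pi0 w' := congrArg Subtype.val h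

/-- `F₂[Λ] → F₂[G]` -/
noncomputable def qq : MonoidAlgebra (ZMod 2) Lam →+* F2G :=
  lft ((MonoidAlgebra.of (ZMod 2) Grig).comp pig)

/-- `F₂[Λ] → F₂[ψ_n(Λ)]` -/
noncomputable def pn (n : ℕ) : MonoidAlgebra (ZMod 2) Lam →+*
    MonoidAlgebra (ZMod 2) (psiN n).range :=
  lft ((MonoidAlgebra.of (ZMod 2) (psiN n).range).comp (psiN n).rangeRestrict)

lemma lft_pn (n : ℕ) (x : MonoidAlgebra (ZMod 2) Lam) :
    lft ((MonoidAlgebra.of (ZMod 2) Grig).comp (rhoN n)) (pn n x) = qq x := by
  have h : (lft ((MonoidAlgebra.of (ZMod 2) Grig).comp (rhoN n))).comp (pn n) = qq := by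
    apply ringHom_ext2
    intro w
    simp only [RingHom.comp_apply, pn, qq, lft_of, MonoidHom.comp_apply]
    congr 1
    apply Subtype.ext
    show alN n (psiN n w) = pi0 w
    rw [alN_psiN_apply]
  exact DFunLike.congr_fun h x

/-- the elements that die at level `n` -/
noncomputable def JJ (n : ℕ) : AddSubgroup (MonoidAlgebra (ZMod 2) Lam) :=
  AddSubgroup.closure {x | ∃ w w' : Lam, psiN n w = psiN n w' ∧
    x = MonoidAlgebra.of (ZMod 2) Lam w - MonoidAlgebra.of (ZMod 2) Lam w'}

lemma psiN_step (n : ℕ) : ∀ w w' : Lam, psiN n w = psiN n w' → psiN (n + 1) w = psiN (n + 1) w' := by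
  induction n with
  | zero =>
    intro w w' h
    have h' : w = w' := h
    rw [h']
  | succ n ih =>
    intro w w' h
    have h0 : Wr.map (psiN n) (psi w) = Wr.map (psiN n) (psi w') := h
    have h1 : psiN n (psi w).l = psiN n (psi w').l := congrArg Wr.l h0
    have h2 : psiN n (psi w).r = psiN n (psi w').r := congrArg Wr.r h0
    have h3 : (psi w).s = (psi w').s := congrArg (fun g : Wr (W n) => g.s) h0
    exact Wr.ext (ih _ _ h1) (ih _ _ h2) h3

lemma psiN_le {n m : ℕ} (h : n ≤ m) {w w' : Lam} (hw : psiN n w = psiN n w') :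
    psiN m w = psiN m w' := by
  induction m, h using Nat.le_induction with
  | base => exact hw
  | succ k _ ih => exact psiN_step k w w' ih

lemma JJ_mono {n m : ℕ} (h : n ≤ m) : JJ n ≤ JJ m := by
  apply AddSubgroup.closure_mono
  rintro x ⟨w, w', hw, rfl⟩
  exact ⟨w, w', psiN_le h hw, rfl⟩

lemma JJ_ker {n : ℕ} {x : MonoidAlgebra (ZMod 2) Lam} (h : x ∈ JJ n) : pn n x = 0 := by
  have hle : JJ n ≤ (pn n).toAddMonoidHom.ker := by
    rw [JJ, AddSubgroup.closure_le]
    rintro x ⟨w, w', hw, rfl⟩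
    rw [SetLike.mem_coe, AddMonoidHom.mem_ker]
    show pn n (MonoidAlgebra.of (ZMod 2) Lam w - MonoidAlgebra.of (ZMod 2) Lam w') = 0
    rw [map_sub, pn, lft_of, lft_of, sub_eq_zero]
    simp only [MonoidHom.comp_apply]
    congr 1
    exact Subtype.ext hw
  exact hle h

lemma die (hC : ContrS) {x : MonoidAlgebra (ZMod 2) Lam} (hx : qq x = 0) :
    ∃ n, ∀ m, n ≤ m → pn m x = 0 := by
  -- a section
  choose σ hσ using pig_surj
  have key : ∀ y : MonoidAlgebra (ZMod 2) Lam, ∃ n,
      y - MonoidAlgebra.mapDomain σ (qq y) ∈ JJ n := by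
    intro y
    induction y using MonoidAlgebra.induction_on with
    | of w =>
      have h1 : pi0 w = pi0 (σ (pig w)) := pi0_eq_of_pig (hσ (pig w)).symm
      obtain ⟨n, hn⟩ := hC (w * (σ (pig w))⁻¹) (by rw [map_mul, map_inv, h1, mul_inv_cancel])
      refine ⟨n, AddSubgroup.subset_closure ⟨w, σ (pig w), ?_, ?_⟩⟩
      · rw [map_mul, map_inv] at hn
        exact mul_inv_eq_one.mp hn
      · congr 1
        rw [qq, lft_of]
        simp only [MonoidHom.comp_apply, MonoidAlgebra.of_apply, MonoidAlgebra.mapDomain_single]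
    | add f g hf hg =>
      obtain ⟨n, hn⟩ := hf
      obtain ⟨m, hm⟩ := hg
      refine ⟨max n m, ?_⟩
      rw [map_add, MonoidAlgebra.mapDomain_add, add_sub_add_comm]
      exact add_mem (JJ_mono (le_max_left n m) hn) (JJ_mono (le_max_right n m) hm)
    | smul r f hf =>
      obtain ⟨n, hn⟩ := hf
      refine ⟨n, ?_⟩
      have hr : r = 0 ∨ r = 1 := by
        revert r
        decide
      rcases hr with rfl | rfl
      · rw [zero_smul, map_zero, MonoidAlgebra.mapDomain_zero, sub_zero]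
        exact zero_mem _
      · rw [one_smul]
        exact hn
  obtain ⟨n, hn⟩ := key x
  rw [hx, MonoidAlgebra.mapDomain_zero, sub_zero] at hn
  exact ⟨n, fun m hm => JJ_ker (JJ_mono hm hn)⟩

lemma qq_surj : Function.Surjective qq := by
  intro y
  induction y using MonoidAlgebra.induction_on with
  | of g =>
    obtain ⟨w, rfl⟩ := pig_surj g
    exact ⟨MonoidAlgebra.of (ZMod 2) Lam w, by rw [qq, lft_of]; rfl⟩
  | add f g hf hg =>
    obtain ⟨f', rfl⟩ := hf
    obtain ⟨g', rfl⟩ := hg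
    exact ⟨f' + g', map_add _ _ _⟩
  | smul r f hf =>
    obtain ⟨f', rfl⟩ := hf
    have hr : r = 0 ∨ r = 1 := by
      revert r
      decide
    rcases hr with rfl | rfl
    · exact ⟨0, by rw [map_zero, zero_smul]⟩
    · exact ⟨f', by rw [one_smul]⟩

lemma die_matrix (hC : ContrS) {ι : Type} [Fintype ι] (x : Matrix ι ι (MonoidAlgebra (ZMod 2) Lam))
    (hx : x.map qq = 0) : ∃ n, ∀ m, n ≤ m → x.map (pn m) = 0 := by
  classical
  have h : ∀ i j, ∃ n, ∀ m, n ≤ m → pn m (x i j) = 0 := fun i j =>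
    die hC (by
      have := congrFun (congrFun hx i) j
      simpa using this)
  choose N hN using h
  refine ⟨Finset.univ.sup fun i => Finset.univ.sup fun j => N i j, fun m hm => ?_⟩
  ext1 i j
  simp only [Matrix.map_apply, Matrix.zero_apply]
  rw [hN i j m]
  · refine le_trans ?_ hm
    exact (Finset.le_sup (f := fun j => N i j) (Finset.mem_univ j)).trans
      (Finset.le_sup (f := fun i => Finset.univ.sup fun j => N i j) (Finset.mem_univ i))

/-- **LIFT** -/
theorem lift (hC : ContrS) : LiftS := by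
  intro κ ι _ _ x hx
  choose s hs using qq_surj
  -- a lift of a matrix
  have hlift : ∀ y : Matrix ι ι F2G, (y.map s).map qq = y := by
    intro y
    ext1 i j
    simp only [Matrix.map_apply]
    exact hs _
  have hmap : ∀ n, ((x.map s).map (pn n)).map
      (lft ((MonoidAlgebra.of (ZMod 2) Grig).comp (rhoN n))) = x := by
    intro n
    ext1 i j
    simp only [Matrix.map_apply]
    rw [lft_pn, hs]
  have hmul : ∀ (R : Type) [Ring R] (f : MonoidAlgebra (ZMod 2) Lam →+* R)
      (A B : Matrix ι ι (MonoidAlgebra (ZMod 2) Lam)), (A * B).map f = A.map f * B.map f :=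
    fun R _ f A B => Matrix.map_mul
  have hone : ∀ (R : Type) [Ring R] (f : MonoidAlgebra (ZMod 2) Lam →+* R),
      ((1 : Matrix ι ι (MonoidAlgebra (ZMod 2) Lam))).map f = 1 :=
    fun R _ f => Matrix.map_one f (map_zero f) (map_one f)
  have hsub : ∀ (R : Type) [Ring R] (f : MonoidAlgebra (ZMod 2) Lam →+* R)
      (A B : Matrix ι ι (MonoidAlgebra (ZMod 2) Lam)), (A - B).map f = A.map f - B.map f :=
    fun R _ f A B => Matrix.map_sub f (map_sub f) A B
  cases κ with
  | unit =>
    obtain ⟨u, hu⟩ := (hx : IsUnit x)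
    have h1 : (x.map s * (u⁻¹.val).map s - 1).map qq = 0 := by
      rw [hsub, hmul, hone, hlift, hlift, ← hu, Units.mul_inv, sub_self]
    have h2 : ((u⁻¹.val).map s * x.map s - 1).map qq = 0 := by
      rw [hsub, hmul, hone, hlift, hlift, ← hu, Units.inv_mul, sub_self]
    obtain ⟨n1, hn1⟩ := die_matrix hC _ h1
    obtain ⟨n2, hn2⟩ := die_matrix hC _ h2
    refine ⟨max n1 n2, (x.map s).map (pn (max n1 n2)), ?_, hmap _⟩
    have h3 := hn1 (max n1 n2) (le_max_left _ _)
    have h4 := hn2 (max n1 n2) (le_max_right _ _)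
    rw [hsub, hmul, hone, sub_eq_zero] at h3 h4
    exact ⟨⟨_, _, h3, h4⟩, rfl⟩
  | idem =>
    have hx' : x * x = x := hx
    have h1 : (x.map s * x.map s - x.map s).map qq = 0 := by
      rw [hsub, hmul, hlift, hx', sub_self]
    obtain ⟨n, hn⟩ := die_matrix hC _ h1
    refine ⟨n, (x.map s).map (pn n), ?_, hmap _⟩
    have h3 := hn n le_rfl
    rw [hsub, hmul, sub_eq_zero] at h3
    exact h3

end KG.H72
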