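import Pool.Agent.Lib.MP_ea1188_al.KG.Iface

/-! # CONTR: contraction -/

set_option autoImplicit false

namespace KG.H72

open KG

lemma lc_lb : lc * lb = ld := by rw [lc, lb_ld, mul_assoc, lb_lb, mul_one]
lemma lb_lc : lb * lc = ld := by rw [lc, ← mul_assoc, lb_lb, one_mul]
lemma ld_lb : ld * lb = lc := lb_ld.symm
lemma lb_ld' : lb * ld = lc := rfl
lemma lc_ld : lc * ld = lb := by rw [lc, mul_assoc, ld_ld, mul_one]
lemma ld_lc : ld * lc = lb := by rw [lc, lb_ld, ← mul_assoc, ld_ld, one_mul]
lemma lc_lc : lc * lc = 1 := lbd_lbd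

/-- the elements `1, b, c, d` -/
def vv (i : Fin 4) : Lam := ![1, lb, lc, ld] i

lemma vv_mul (i j : Fin 4) : ∃ k, vv i * vv j = vv k := by
  fin_cases i <;> fin_cases j
  · exact ⟨0, one_mul 1⟩
  · exact ⟨1, one_mul lb⟩
  · exact ⟨2, one_mul lc⟩
  · exact ⟨3, one_mul ld⟩
  · exact ⟨1, mul_one lb⟩
  · exact ⟨0, lb_lb⟩
  · exact ⟨3, lb_lc⟩
  · exact ⟨2, lb_ld'⟩
  · exact ⟨2, mul_one lc⟩
  · exact ⟨3, lc_lb⟩
  · exact ⟨0, lc_lc⟩
  · exact ⟨1, lc_ld⟩
  · exact ⟨3, mul_one ld⟩
  · exact ⟨2, ld_lb⟩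
  · exact ⟨1, ld_lc⟩
  · exact ⟨0, ld_ld⟩

/-- words with at most `m` letters from `{1, b, c, d}` and arbitrarily many letters `a` -/
inductive T : ℕ → Lam → Prop
  | one (m : ℕ) : T m 1
  | a (m : ℕ) (w : Lam) : T m w → T m (la * w)
  | v (m : ℕ) (w : Lam) (i : Fin 4) : T m w → T (m + 1) (vv i * w)

lemma T_succ {m : ℕ} {w : Lam} (h : T m w) : T (m + 1) w := by
  have h2 := T.v m w 0 h
  rwa [show vv 0 * w = w from one_mul w] at h2

lemma T_mono {m m' : ℕ} {w : Lam} (hm : m ≤ m') (h : T m w) : T m' w := by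
  induction m', hm using Nat.le_induction with
  | base => exact h
  | succ k _ ih => exact T_succ ih

/-- `x₁ a x₂ a ⋯ x_m a` -/
def AA : List (Fin 4) → Lam
  | [] => 1
  | i :: xs => vv i * la * AA xs

lemma AA_cons (i : Fin 4) (xs : List (Fin 4)) : AA (i :: xs) = vv i * la * AA xs := rfl

lemma la_pow_cases (e : Bool) : (la * (if e then la else 1) = if !e then la else 1) := by
  cases e
  · simp
  · simp [la_la]

/-- alternating form -/
lemma T_form {m : ℕ} {w : Lam} (h : T m w) : ∃ (xs : List (Fin 4)) (e e' : Bool),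
    xs.length ≤ m ∧ w = (if e then la else 1) * AA xs * (if e' then la else 1) := by
  induction h with
  | one m => exact ⟨[], false, false, Nat.zero_le _, by simp [AA]⟩
  | a m w _ ih =>
    obtain ⟨xs, e, e', hl, rfl⟩ := ih
    refine ⟨xs, !e, e', hl, ?_⟩
    rw [← la_pow_cases e]
    simp only [mul_assoc]
  | v m w i _ ih =>
    obtain ⟨xs, e, e', hl, rfl⟩ := ih
    cases e
    · cases xs with
      | nil =>
        refine ⟨[i], false, !e', by simp, ?_⟩
        rw [← la_pow_cases e', AA_cons]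
        simp only [AA, mul_one, Bool.false_eq_true, if_false, one_mul]
        rw [← mul_assoc, mul_assoc (vv i) la la, la_la, mul_one]
      | cons j ys =>
        obtain ⟨k, hk⟩ := vv_mul i j
        refine ⟨k :: ys, false, e', by simpa using hl.trans (Nat.le_succ m), ?_⟩
        rw [AA_cons, AA_cons, ← hk]
        simp only [Bool.false_eq_true, if_false, one_mul, mul_assoc]
    · refine ⟨i :: xs, false, e', by simpa using hl, ?_⟩
      rw [AA_cons]
      simp only [Bool.false_eq_true, if_false, if_true, one_mul, mul_assoc]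

lemma psi_vv (i : Fin 4) : ∃ j : Fin 4, (psi (vv i)).s = false ∧ (psi (vv i)).r = vv j ∧
    ((psi (vv i)).l = 1 ∨ (psi (vv i)).l = la) := by
  fin_cases i
  · refine ⟨0, ?_, ?_, Or.inl ?_⟩ <;> simp [vv]
  · refine ⟨2, ?_, ?_, Or.inr ?_⟩ <;> simp [vv]
  · refine ⟨3, ?_, ?_, Or.inr ?_⟩ <;> simp [vv]
  · refine ⟨1, ?_, ?_, Or.inl ?_⟩ <;> simp [vv]

/-- sections of alternating words -/
lemma AA_sections : ∀ xs : List (Fin 4), T (xs.length / 2) (psi (AA xs)).l ∧
    T ((xs.length + 1) / 2) (psi (AA xs)).r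
  | [] => by
      simp only [AA, map_one, Wr.one_l, Wr.one_r]
      exact ⟨T.one _, T.one _⟩
  | i :: xs => by
      obtain ⟨ihl, ihr⟩ := AA_sections xs
      obtain ⟨j, h1, h2, h3⟩ := psi_vv i
      have hs : (psi (vv i) * psi la).s = true := by
        rw [Wr.mul_s, h1, psi_la]
        rfl
      have hl : (psi (vv i) * psi la).l = (psi (vv i)).l := by
        rw [Wr.mul_l, h1, psi_la]
        simp
      have hr : (psi (vv i) * psi la).r = (psi (vv i)).r := by
        rw [Wr.mul_r, h1, psi_la]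
        simp
      rw [AA_cons, map_mul, map_mul]
      constructor
      · rw [Wr.mul_l, hs, hl, if_pos rfl]
        have e : (i :: xs).length / 2 = (xs.length + 1) / 2 := rfl
        rw [e]
        rcases h3 with h3 | h3
        · rw [h3, one_mul]
          exact ihr
        · rw [h3]
          exact T.a _ _ ihr
      · rw [Wr.mul_r, hs, hr, if_pos rfl, h2]
        have e : ((i :: xs).length + 1) / 2 = xs.length / 2 + 1 := by
          rw [List.length_cons]
          omega
        rw [e]
        exact T.v _ _ _ ihl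

lemma T_sections {m : ℕ} {w : Lam} (h : T m w) : T ((m + 1) / 2) (psi w).l ∧
    T ((m + 1) / 2) (psi w).r := by
  obtain ⟨xs, e, e', hl, rfl⟩ := T_form h
  obtain ⟨h1, h2⟩ := AA_sections xs
  have h1' : T ((m + 1) / 2) (psi (AA xs)).l := T_mono (by omega) h1
  have h2' : T ((m + 1) / 2) (psi (AA xs)).r := T_mono (by omega) h2
  -- multiplication by a power of `a` on the left and on the right
  have hleft : ∀ (w : Lam), T ((m + 1) / 2) (psi w).l → T ((m + 1) / 2) (psi w).r →
      T ((m + 1) / 2) (psi (la * w)).l ∧ T ((m + 1) / 2) (psi (la * w)).r := by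
    intro w hl hr
    rw [map_mul, Wr.mul_l, Wr.mul_r, psi_la]
    simp only [if_true, one_mul]
    exact ⟨hr, hl⟩
  have hright : ∀ (w : Lam), T ((m + 1) / 2) (psi w).l → T ((m + 1) / 2) (psi w).r →
      T ((m + 1) / 2) (psi (w * la)).l ∧ T ((m + 1) / 2) (psi (w * la)).r := by
    intro w hl hr
    rw [map_mul, Wr.mul_l, Wr.mul_r, psi_la]
    simp only [ite_self, mul_one]
    exact ⟨hl, hr⟩
  cases e <;> cases e' <;> simp only [Bool.false_eq_true, if_false, if_true, one_mul, mul_one]
  · exact ⟨h1', h2'⟩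
  · exact hright _ h1' h2'
  · exact hleft _ h1' h2'
  · obtain ⟨h3, h4⟩ := hleft _ h1' h2'
    exact hright _ h3 h4

lemma pi0_vv {i : Fin 4} (h : pi0 (vv i) = 1) : vv i = 1 := by
  fin_cases i
  · rfl
  · exfalso
    have h2 := congrArg (fun f : Equiv.Perm (List Bool) => f [false, false]) h
    simp [vv, pv, vF, aF] at h2
  · exfalso
    have h2 := congrArg (fun f : Equiv.Perm (List Bool) => f [false, false]) h
    simp [vv, pv, vF, aF] at h2
  · exfalso
    have h2 := congrArg (fun f : Equiv.Perm (List Bool) => f [true, false, false]) h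
    simp [vv, pv, vF, aF] at h2

lemma s_of_pi0 {w : Lam} (h : pi0 w = 1) : (psi w).s = false ∧ pi0 (psi w).l = 1 ∧
    pi0 (psi w).r = 1 := by
  have hact : Wr.act pi0 (psi w) = 1 := by
    have := DFunLike.congr_fun act_psi w
    rw [MonoidHom.comp_apply] at this
    rw [this, h]
  have hs : (psi w).s = false := by
    have h2 := congrArg (fun f : Equiv.Perm (List Bool) => f [false]) hact
    simp only [Wr.act_cons, Equiv.Perm.coe_one, id_eq, List.cons.injEq] at h2
    simpa using h2.1
  refine ⟨hs, ?_, ?_⟩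
  · ext1 u
    have h2 := congrArg (fun f : Equiv.Perm (List Bool) => f (false :: u)) hact
    simp only [Wr.act_cons, Equiv.Perm.coe_one, id_eq, List.cons.injEq, hs] at h2
    simpa using h2.2
  · ext1 u
    have h2 := congrArg (fun f : Equiv.Perm (List Bool) => f (true :: u)) hact
    simp only [Wr.act_cons, Equiv.Perm.coe_one, id_eq, List.cons.injEq, hs] at h2
    simpa using h2.2

lemma T_one_trivial {w : Lam} (h : T 1 w) (hw : pi0 w = 1) : w = 1 := by
  obtain ⟨xs, e, e', hl, rfl⟩ := T_form h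
  -- write the middle part as `x a^δ`
  have hmid : ∃ (i : Fin 4) (δ : Bool), AA xs = vv i * (if δ then la else 1) := by
    cases xs with
    | nil => exact ⟨0, false, by simp [AA, vv]⟩
    | cons i ys =>
      have : ys = [] := by
        rw [List.length_cons] at hl
        exact List.length_eq_zero_iff.mp (by omega)
      subst this
      exact ⟨i, true, by simp [AA]⟩
  obtain ⟨i, δ, hi⟩ := hmid
  rw [hi] at hw ⊢
  have hs := (s_of_pi0 hw).1
  obtain ⟨j, h1, -, -⟩ := psi_vv i
  have hla : (psi la).s = true := by rw [psi_la]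
  -- the parity of the number of letters `a`
  have hpar : xor (xor e δ) e' = false := by
    rw [map_mul, map_mul, map_mul, Wr.mul_s, Wr.mul_s, Wr.mul_s, h1] at hs
    cases e <;> cases δ <;> cases e' <;> simp_all
  have hlainv : la⁻¹ = la := inv_eq_of_mul_eq_one_left la_la
  cases e <;> cases δ <;> cases e' <;> simp only [Bool.false_eq_true, if_false, if_true, one_mul,
    mul_one, Bool.xor_false, Bool.xor_true, Bool.not_false, Bool.not_true, Bool.true_eq_false] at hw hpar ⊢
  · exact pi0_vv hw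
  · rw [mul_assoc, la_la, mul_one] at hw ⊢
    exact pi0_vv hw
  · have h3 : pi0 (vv i) = 1 := by
      rw [map_mul, map_mul] at hw
      have h4 : pi0 la * pi0 la = 1 := by rw [← map_mul, la_la, map_one]
      calc pi0 (vv i) = (pi0 la * pi0 la) * pi0 (vv i) * (pi0 la * pi0 la) := by
            rw [h4, one_mul, mul_one]
        _ = pi0 la * (pi0 la * pi0 (vv i) * pi0 la) * pi0 la := by simp only [mul_assoc]
        _ = 1 := by rw [hw, mul_one, h4]
    rw [pi0_vv h3, mul_one, la_la]
  · have h3 : pi0 (vv i) = 1 := by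
      rw [map_mul, map_mul] at hw
      have h4 : pi0 la * pi0 la = 1 := by rw [← map_mul, la_la, map_one]
      calc pi0 (vv i) = (pi0 la * pi0 la) * pi0 (vv i) * (pi0 la * pi0 la) := by
            rw [h4, one_mul, mul_one]
        _ = pi0 la * (pi0 la * (pi0 (vv i) * pi0 la)) * pi0 la := by simp only [mul_assoc]
        _ = 1 := by rw [hw, mul_one, h4]
    rw [pi0_vv h3, one_mul, la_la]

lemma psiN_succ_apply (n : ℕ) (w : Lam) : psiN (n + 1) w = Wr.map (psiN n) (psi w) := rfl

lemma psiN_succ_eq_one {n : ℕ} {w : Lam} : psiN (n + 1) w = 1 ↔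
    psiN n (psi w).l = 1 ∧ psiN n (psi w).r = 1 ∧ (psi w).s = false := by
  rw [psiN_succ_apply]
  constructor
  · intro h
    exact ⟨congrArg Wr.l h, congrArg Wr.r h, congrArg Wr.s h⟩
  · rintro ⟨h1, h2, h3⟩
    exact Wr.ext h1 h2 h3

lemma psiN_mono {n m : ℕ} (hnm : n ≤ m) {w : Lam} (h : psiN n w = 1) : psiN m w = 1 := by
  have hstep : ∀ (n : ℕ) (w : Lam), psiN n w = 1 → psiN (n + 1) w = 1 := by
    intro n
    induction n with
    | zero =>
      intro w hw
      have hw' : w = 1 := hw
      rw [hw', map_one]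
    | succ n ih =>
      intro w hw
      rw [psiN_succ_eq_one] at hw ⊢
      exact ⟨ih _ hw.1, ih _ hw.2.1, hw.2.2⟩
  induction m, hnm using Nat.le_induction with
  | base => exact h
  | succ k _ ih => exact hstep k w ih

lemma contr_aux : ∀ (m : ℕ) (w : Lam), T m w → pi0 w = 1 → ∃ n, psiN n w = 1 := by
  intro m
  induction m using Nat.strong_induction_on with
  | _ m ih =>
    intro w hT hw
    rcases Nat.lt_or_ge 1 m with hm | hm
    · obtain ⟨h1, h2⟩ := T_sections hT
      obtain ⟨hs, hl, hr⟩ := s_of_pi0 hw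
      obtain ⟨n1, hn1⟩ := ih ((m + 1) / 2) (by omega) _ h1 hl
      obtain ⟨n2, hn2⟩ := ih ((m + 1) / 2) (by omega) _ h2 hr
      exact ⟨max n1 n2 + 1, psiN_succ_eq_one.mpr ⟨psiN_mono (le_max_left _ _) hn1,
        psiN_mono (le_max_right _ _) hn2, hs⟩⟩
    · exact ⟨0, T_one_trivial (T_mono hm hT) hw⟩

lemma T_exists (w : Lam) : ∃ m, T m w := by
  have hmul : ∀ (z : FreeGroup (Fin 3)) (w : Lam), (∃ m, T m w) →
      (∃ m, T m (PresentedGroup.mk rels z * w)) ∧ ∃ m, T m ((PresentedGroup.mk rels z)⁻¹ * w) := by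
    intro z
    induction z using FreeGroup.induction_on with
    | C1 =>
      intro w hw
      rw [map_one, inv_one, one_mul]
      exact ⟨hw, hw⟩
    | of x =>
      intro w hw
      obtain ⟨m, hm⟩ := hw
      have hinv : ∀ g : Lam, g * g = 1 → g⁻¹ = g := fun g hg => inv_eq_of_mul_eq_one_left hg
      fin_cases x
      · have h : PresentedGroup.mk rels (FreeGroup.of 0) = la := rfl
        constructor
        · exact ⟨m, T.a m w hm⟩
        · refine ⟨m, ?_⟩
          change T m ((PresentedGroup.mk rels (FreeGroup.of 0))⁻¹ * w)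
          rw [h, hinv la la_la]
          exact T.a m w hm
      · have h : PresentedGroup.mk rels (FreeGroup.of 1) = lb := rfl
        constructor
        · exact ⟨m + 1, T.v m w 1 hm⟩
        · refine ⟨m + 1, ?_⟩
          change T (m + 1) ((PresentedGroup.mk rels (FreeGroup.of 1))⁻¹ * w)
          rw [h, hinv lb lb_lb]
          exact T.v m w 1 hm
      · have h : PresentedGroup.mk rels (FreeGroup.of 2) = ld := rfl
        constructor
        · exact ⟨m + 1, T.v m w 3 hm⟩
        · refine ⟨m + 1, ?_⟩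
          change T (m + 1) ((PresentedGroup.mk rels (FreeGroup.of 2))⁻¹ * w)
          rw [h, hinv ld ld_ld]
          exact T.v m w 3 hm
    | inv_of x hx =>
      intro w hw
      rw [map_inv, inv_inv]
      exact ⟨(hx w hw).2, (hx w hw).1⟩
    | mul x y hx hy =>
      intro w hw
      rw [map_mul, mul_assoc, mul_inv_rev, mul_assoc]
      exact ⟨(hx _ (hy w hw).1).1, (hy _ (hx w hw).2).2⟩
  induction w using PresentedGroup.induction_on with
  | _ z =>
    have h := (hmul z 1 ⟨0, T.one 0⟩).1
    rw [mul_one] at h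
    exact h

/-- **CONTR** -/
theorem contr : ContrS := by
  intro w hw
  obtain ⟨m, hm⟩ := T_exists w
  exact contr_aux m w hm hw

end KG.H72
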